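import Pool.Agent.Run7.h318.SH.Iso

/-!
# The elliptic curves with `Z/2 x Z/4` or `Z/2 x Z/6`, ordered by height

As `Pool/Agent/W605/RT/PAR4.lean`, `Pool/Agent/W135/RT/Par6.lean`, `Pool/Agent/W307/RT/Box.lean`.
-/

set_option autoImplicit false

namespace Run7.h318.SH

open Finset Pool.Agent.W262.RK Pool.Agent.W307.RT

open scoped Classical in
/-- parametrisation of `Cv m` by coprime pairs, with the Tate-Shafarevich group -/
def PARq (m k : ℕ) (M N : ℤ → ℤ → ℤ) : Prop :=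
  ∃ (C : ℕ) (F : ℤ × ℤ → ℤ × ℤ), ∀ H : ℕ, Set.InjOn F (Cv m H : Set (ℤ × ℤ)) ∧
    ∀ c ∈ Cv m H, IsCoprime (F c).1 (F c).2 ∧ M (F c).1 (F c).2 ≠ 0 ∧ N (F c).1 (F c).2 ≠ 0 ∧
      M (F c).1 (F c).2 ≠ N (F c).1 (F c).2 ∧
      (F c).1.natAbs ^ k ≤ C * H ∧ (F c).2.natAbs ^ k ≤ C * H ∧
      Finite {x : Pool.Agent.W262.SH.Sha (Sh c.1 c.2) // x + x = 0} ∧
      RRW (Sh c.1 c.2) ≤ RR (-(M (F c).1 (F c).2)) (-(N (F c).1 (F c).2))

lemma delta_Sh {A B : ℤ} (h : 4 * A ^ 3 + 27 * B ^ 2 ≠ 0) : (Sh A B).Δ ≠ 0 := by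
  have e : (Sh A B).Δ = -16 * ((4 * A ^ 3 + 27 * B ^ 2 : ℤ) : ℚ) := by
    simp only [WeierstrassCurve.Δ, WeierstrassCurve.b₂, WeierstrassCurve.b₄,
      WeierstrassCurve.b₆, WeierstrassCurve.b₈, Sh]
    push_cast
    ring
  rw [e]
  exact mul_ne_zero (by norm_num) (by exact_mod_cast h)

open scoped Classical in
/-- the comparison -/
lemma cmp_curve {A B M N : ℤ} {r u : ℚ} (hu : u ≠ 0) (hD : 4 * A ^ 3 + 27 * B ^ 2 ≠ 0)
    (hM : M ≠ 0) (hN : N ≠ 0) (hMN : M ≠ N)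
    (hW : (⟨0, (0 + 3 * r) / u ^ 2, 0, ((A : ℚ) + 2 * r * 0 + 3 * r ^ 2) / u ^ 4,
      ((B : ℚ) + r * A + r ^ 2 * 0 + r ^ 3) / u ^ 6⟩ : WeierstrassCurve ℚ) = EAB (-M) (-N)) :
    Finite {x : Pool.Agent.W262.SH.Sha (Sh A B) // x + x = 0} ∧
      RRW (Sh A B) ≤ RR (-M) (-N) := by
  have h := vr_shift (a2 := 0) (a4 := (A : ℚ)) (a6 := (B : ℚ)) (r := r) hu
  rw [hW] at h
  rw [rr_eq]
  exact rrw_le (W' := Sh A B) h (delta_Sh hD)
    (fin_EAB (neg_ne_zero.2 hM) (neg_ne_zero.2 hN) (fun h => hMN (neg_inj.1 h)))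

open Pool.Agent.W605.RT in
theorem par4q : PARq 4 12 M4 N4 := by
  refine ⟨54, FF, fun H => ⟨?_, ?_⟩⟩
  · intro c hc c' hc' hcc
    rw [Finset.mem_coe] at hc hc'
    simp only [Cv, Finset.mem_filter] at hc hc'
    obtain ⟨-, hD, -, -, hmin, hT⟩ := hc
    obtain ⟨-, hD', -, -, hmin', hT'⟩ := hc'
    have r := FF_rel (core hD hT)
    have r' := FF_rel (core hD' hT')
    change Rel c (FF c) at r
    change Rel c' (FF c') at r'
    rw [← hcc] at r'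
    exact rel_unique r r' hmin hmin'
  · intro c hc
    simp only [Cv, Finset.mem_filter] at hc
    obtain ⟨-, hD, hH, -, hmin, hT⟩ := hc
    have r := FF_rel (core hD hT)
    change Rel c (FF c) at r
    obtain ⟨hb1, hb2⟩ := rel_bound (A := c.1) (B := c.2) r hH
    set ab := FF c with hab
    clear_value ab
    obtain ⟨A, B⟩ := c
    obtain ⟨a, b⟩ := ab
    obtain ⟨g, e, hg, hco, ha0, hb0, hne, he, hA, hB⟩ := r
    change a ≠ 0 at ha0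
    change b ≠ 0 at hb0
    change a ^ 2 ≠ b ^ 2 at hne
    change 3 * e = g ^ 2 * (a ^ 2 + b ^ 2) at he
    change 3 * A = -(g ^ 4 * (a ^ 4 - a ^ 2 * b ^ 2 + b ^ 4)) at hA
    change 27 * B = g ^ 6 * ((a ^ 2 + b ^ 2) * (2 * a ^ 2 - b ^ 2) * (a ^ 2 - 2 * b ^ 2)) at hB
    refine ⟨hco, ?_, ?_, ?_, hb1, hb2, ?_⟩
    · exact pow_ne_zero 2 ha0
    · exact pow_ne_zero 2 hb0
    · exact hne
    · have hgq : (g : ℚ) ≠ 0 := by exact_mod_cast hg.ne'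
      have heq : (e : ℚ) = (g : ℚ) ^ 2 * ((a : ℚ) ^ 2 + (b : ℚ) ^ 2) / 3 := by
        have : (3 : ℚ) * e = (g : ℚ) ^ 2 * ((a : ℚ) ^ 2 + (b : ℚ) ^ 2) := by exact_mod_cast he
        linarith
      have hAq : (A : ℚ) = -((g : ℚ) ^ 4 * ((a : ℚ) ^ 4 - (a : ℚ) ^ 2 * (b : ℚ) ^ 2 + (b : ℚ) ^ 4)) / 3 := by
        have : (3 : ℚ) * A = -((g : ℚ) ^ 4 * ((a : ℚ) ^ 4 - (a : ℚ) ^ 2 * (b : ℚ) ^ 2 + (b : ℚ) ^ 4)) := by
          exact_mod_cast hA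
        linarith
      have hBq : (B : ℚ) = (g : ℚ) ^ 6 * (((a : ℚ) ^ 2 + (b : ℚ) ^ 2) * (2 * (a : ℚ) ^ 2 - (b : ℚ) ^ 2) *
          ((a : ℚ) ^ 2 - 2 * (b : ℚ) ^ 2)) / 27 := by
        have : (27 : ℚ) * B = (g : ℚ) ^ 6 * (((a : ℚ) ^ 2 + (b : ℚ) ^ 2) *
            (2 * (a : ℚ) ^ 2 - (b : ℚ) ^ 2) * ((a : ℚ) ^ 2 - 2 * (b : ℚ) ^ 2)) := by exact_mod_cast hB
        linarith
      have hW : (⟨0, ((0 : ℚ) + 3 * e) / (g : ℚ) ^ 2, 0,
          ((A : ℚ) + 2 * e * 0 + 3 * (e : ℚ) ^ 2) / (g : ℚ) ^ 4,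
          ((B : ℚ) + e * A + (e : ℚ) ^ 2 * 0 + (e : ℚ) ^ 3) / (g : ℚ) ^ 6⟩ : WeierstrassCurve ℚ)
          = EAB (-(M4 a b)) (-(N4 a b)) := by
        unfold EAB M4 N4
        simp only [WeierstrassCurve.mk.injEq, true_and]
        refine ⟨?_, ?_, ?_⟩
        · rw [heq]; push_cast; field_simp; ring
        · rw [heq, hAq]; push_cast; field_simp; ring
        · rw [heq, hAq, hBq]; field_simp; ring
      exact cmp_curve hgq hD (pow_ne_zero 2 ha0) (pow_ne_zero 2 hb0) hne hW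

open Pool.Agent.W135.RT in
open scoped Classical in
theorem fin_leq {A B u v : ℤ} {s : ℚ} (hR : R6 A B u v s) (hD : 4 * A ^ 3 + 27 * B ^ 2 ≠ 0) :
    Finite {x : Pool.Agent.W262.SH.Sha (Sh A B) // x + x = 0} ∧
      RRW (Sh A B) ≤ RR (-(M6 u v)) (-(N6 u v)) := by
  set r : ℚ := s ^ 2 * ((M6 u v : ℚ) + N6 u v) / 3 with hr
  have hs := hR.s0
  have h1 : (⟨0, (0 + 3 * r) / s ^ 2, 0, ((A : ℚ) + 2 * r * 0 + 3 * r ^ 2) / s ^ 4,
      ((B : ℚ) + r * A + r ^ 2 * 0 + r ^ 3) / s ^ 6⟩ : WeierstrassCurve ℚ) =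
      EAB (-(M6 u v)) (-(N6 u v)) := by
    have e1 : (0 + 3 * r) / s ^ 2 = (M6 u v : ℚ) + N6 u v := by
      rw [hr]; field_simp; ring
    have e2 : ((A : ℚ) + 2 * r * 0 + 3 * r ^ 2) / s ^ 4 = (M6 u v : ℚ) * N6 u v := by
      rw [div_eq_iff (pow_ne_zero 4 hs), hr]
      linear_combination (1 / 3) * hR.ea
    have e3 : ((B : ℚ) + r * A + r ^ 2 * 0 + r ^ 3) / s ^ 6 = 0 := by
      rw [div_eq_zero_iff]; left
      rw [hr]
      linear_combination (1 / 27) * hR.eb + (1 / 9) * s ^ 2 * ((M6 u v : ℚ) + N6 u v) * hR.ea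
    rw [e1, e2, e3]
    unfold EAB
    push_cast
    congr 1 <;> ring
  exact cmp_curve hs hD hR.m0 hR.n0 hR.mn h1

open Pool.Agent.W135.RT in
theorem par6q : PARq 6 24 M6 N6 := by
  refine ⟨147456 ^ 3, FF, fun H => ⟨?_, ?_⟩⟩
  · intro c hc c' hc' hcc
    obtain ⟨s, hR⟩ := FF_spec hc
    obtain ⟨s', hR'⟩ := FF_spec hc'
    rw [← hcc] at hR'
    have hc1 := memCv (Finset.mem_coe.mp hc)
    have hc1' := memCv (Finset.mem_coe.mp hc')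
    obtain ⟨h1, h2⟩ := inj hR hR' hc1.2.2.2.1 hc1'.2.2.2.1
    exact Prod.ext h1 h2
  · intro c hc
    obtain ⟨s, hR⟩ := FF_spec hc
    have hc1 := memCv hc
    exact ⟨hR.cop, hR.m0, hR.n0, hR.mn, bound2 hR H hc1.2.1 _ (Or.inl rfl),
      bound2 hR H hc1.2.1 _ (Or.inr rfl), fin_leq hR hc1.1⟩

/-- from the box to the curves -/
lemma final_ofq {m k : ℕ} {M N : ℤ → ℤ → ℤ} (hk : 1 ≤ k) (hP : PARq m k M N) (hL : LOW m k)
    (hbox : ∃ C : ℝ, 0 ≤ C ∧ ∀ T : ℕ, 1 ≤ T → ∑ t ∈ (Box T).filter (fun t : ℤ × ℤ =>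
      IsCoprime t.1 t.2 ∧ M t.1 t.2 ≠ 0 ∧ N t.1 t.2 ≠ 0 ∧ M t.1 t.2 ≠ N t.1 t.2),
      (RR (-(M t.1 t.2)) (-(N t.1 t.2)) : ℝ) ≤
        C * (T : ℝ) ^ 2) :
    ∃ C : ℝ, ∀ H : ℕ, ∑ c ∈ Cv m H,
      (RRW (Sh c.1 c.2) : ℝ) ≤ C * (Cv m H).card := by
  classical
  obtain ⟨C0', F, hF⟩ := hP
  obtain ⟨c, C1, T0, hc, hlow⟩ := hL
  obtain ⟨C, hC, hb⟩ := hbox
  set C0 := C0' + 1 with hC0
  have hF' : ∀ H : ℕ, ∀ x ∈ Cv m H, (F x).1.natAbs ^ k ≤ C0 * H ∧ (F x).2.natAbs ^ k ≤ C0 * H := by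
    intro H x hx
    obtain ⟨_, _, _, _, h1, h2, _⟩ := (hF H).2 x hx
    have : C0' * H ≤ C0 * H := Nat.mul_le_mul_right _ (by omega)
    exact ⟨h1.trans this, h2.trans this⟩
  set D := C0 * C1 + 1 with hD
  have hD1 : 1 ≤ D := by omega
  -- the sum is at most `C T ^ 2`
  have hsum : ∀ H T : ℕ, 1 ≤ T → (∀ x ∈ Cv m H, (F x).1.natAbs ≤ T ∧ (F x).2.natAbs ≤ T) →
      ∑ x ∈ Cv m H, (RRW (Sh x.1 x.2) : ℝ) ≤ C * (T : ℝ) ^ 2 := by
    intro H T hT hx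
    refine le_trans ?_ (hb T hT)
    obtain ⟨hinj, h2⟩ := hF H
    have h3 : ∑ x ∈ Cv m H, (RRW (Sh x.1 x.2) : ℝ) ≤
        ∑ t ∈ (Cv m H).image F, (RR (-(M t.1 t.2)) (-(N t.1 t.2)) : ℝ) := by
      rw [sum_image hinj]
      apply sum_le_sum
      intro x hx'
      obtain ⟨_, _, _, _, _, _, _, h4⟩ := h2 x hx'
      exact_mod_cast h4
    refine h3.trans ?_
    apply sum_le_sum_of_subset_of_nonneg
    · intro t ht
      obtain ⟨x, hx', rfl⟩ := mem_image.1 ht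
      obtain ⟨a1, a2, a3, a4, _⟩ := h2 x hx'
      rw [mem_filter, mem_Box]
      exact ⟨hx x hx', a1, a2, a3, a4⟩
    · intro t _ _
      positivity
  refine ⟨C * ((D * (T0 + 1) : ℕ) : ℝ) ^ 2 + C * (2 * (D : ℝ)) ^ 2 / c, fun H => ?_⟩
  set K := (Cv m H).card with hK
  by_cases hK0 : K = 0
  · have : Cv m H = ∅ := card_eq_zero.1 hK0
    rw [this, sum_empty, hK0]
    simp
  have hK1 : (1 : ℝ) ≤ K := by exact_mod_cast Nat.one_le_iff_ne_zero.2 hK0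
  have hq0 : 0 ≤ C * (2 * (D : ℝ)) ^ 2 / c := by positivity
  have hr0 : 0 ≤ C * ((D * (T0 + 1) : ℕ) : ℝ) ^ 2 := by positivity
  set T := Nat.findGreatest (fun t => t ^ k ≤ C0 * H) (C0 * H) with hT
  have hle : ∀ x : ℕ, x ^ k ≤ C0 * H → x ≤ T := by
    intro x hx
    apply Nat.le_findGreatest
    · exact (Nat.le_self_pow (by omega) x).trans hx
    · exact hx
  have hTk : T ^ k ≤ C0 * H := by
    have : (fun t => t ^ k ≤ C0 * H) T :=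
      Nat.findGreatest_spec (P := fun t => t ^ k ≤ C0 * H) (Nat.zero_le _)
        (by rw [zero_pow (by omega)]; exact Nat.zero_le _)
    exact this
  have hxT : ∀ x ∈ Cv m H, (F x).1.natAbs ≤ T ∧ (F x).2.natAbs ≤ T := fun x hx =>
    ⟨hle _ (hF' H x hx).1, hle _ (hF' H x hx).2⟩
  rcases Nat.lt_or_ge T (D * (T0 + 1)) with hlt | hge
  · have h1 := hsum H (D * (T0 + 1)) (Nat.mul_pos hD1 (Nat.succ_pos _)) fun x hx =>
      ⟨(hxT x hx).1.trans hlt.le, (hxT x hx).2.trans hlt.le⟩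
    calc _ ≤ C * ((D * (T0 + 1) : ℕ) : ℝ) ^ 2 := h1
      _ ≤ C * ((D * (T0 + 1) : ℕ) : ℝ) ^ 2 * K := le_mul_of_one_le_right hr0 hK1
      _ ≤ _ := by
        apply mul_le_mul_of_nonneg_right _ (by linarith)
        linarith
  · have hT1 : 1 ≤ T := (Nat.mul_pos hD1 (Nat.succ_pos _)).trans_le hge
    have h1 := hsum H T hT1 hxT
    set T' := T / D with hT'
    have hT'0 : T0 + 1 ≤ T' := by
      rw [hT', Nat.le_div_iff_mul_le hD1, mul_comm]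
      exact hge
    have h2 : T' * D ≤ T := Nat.div_mul_le_self T D
    have h3 : C1 * T' ^ k ≤ H := by
      have a1 : (T' * D) ^ k ≤ C0 * H := (Nat.pow_le_pow_left h2 k).trans hTk
      rw [mul_pow] at a1
      have a2 : D ≤ D ^ k := Nat.le_self_pow (by omega) D
      have a3 : T' ^ k * (C0 * C1) ≤ C0 * H :=
        (Nat.mul_le_mul_left _ (by omega : C0 * C1 ≤ D ^ k)).trans a1
      have a4 : C0 * (C1 * T' ^ k) ≤ C0 * H := by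
        calc C0 * (C1 * T' ^ k) = T' ^ k * (C0 * C1) := by ring
          _ ≤ _ := a3
      exact Nat.le_of_mul_le_mul_left a4 (by omega)
    have h4 := hlow T' H (by omega) h3
    have h5 : T ≤ 2 * D * T' := by
      have a1 : T < D * (T' + 1) := by
        rw [mul_comm]
        exact Nat.lt_mul_of_div_lt (by rw [← hT']; omega) hD1
      have a2 : D * (T' + 1) ≤ 2 * D * T' := by nlinarith
      omega
    have h6 : (T : ℝ) ≤ 2 * D * T' := by exact_mod_cast h5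
    calc _ ≤ C * (T : ℝ) ^ 2 := h1
      _ ≤ C * (2 * D * T') ^ 2 := by
        apply mul_le_mul_of_nonneg_left _ hC
        exact pow_le_pow_left₀ (Nat.cast_nonneg T) h6 2
      _ = C * (2 * (D : ℝ)) ^ 2 / c * (c * (T' : ℝ) ^ 2) := by
        field_simp
      _ ≤ C * (2 * (D : ℝ)) ^ 2 / c * K := mul_le_mul_of_nonneg_left h4 hq0
      _ ≤ _ := by
        apply mul_le_mul_of_nonneg_right _ (by linarith)
        linarith

/-- the curves with `Z/2 x Z/4` -/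
theorem main4q : ∃ C : ℝ, ∀ H : ℕ, ∑ c ∈ Cv 4 H, (RRW (Sh c.1 c.2) : ℝ) ≤ C * (Cv 4 H).card :=
  final_ofq (by norm_num) par4q Pool.Agent.W29.RT.low4 box4q

/-- the curves with `Z/2 x Z/6` -/
theorem main6q : ∃ C : ℝ, ∀ H : ℕ, ∑ c ∈ Cv 6 H, (RRW (Sh c.1 c.2) : ℝ) ≤ C * (Cv 6 H).card :=
  final_ofq (by norm_num) par6q Pool.Agent.W376.RTL.low6 box6q

end Run7.h318.SH
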