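import Pool.Agent.W22.RK.Loc

/-!
# Local conditions of the 2-descent for `p`-adic points with a rational abscissa

As `Pool/Agent/W22/RK/Loc.lean`, but `x (x - A) (x - B)` is only a square in the `p`-adic numbers.
-/

set_option autoImplicit false

namespace Run7.h318.SH

open Pool.Agent.W262.RK Pool.Agent.W22.RK

section val

variable {p : ℕ} [hp : Fact p.Prime]

lemma v_mul3q {x a b : ℚ} {y : ℚ_[p]} (hx : x ≠ 0) (ha : a ≠ 0) (hb : b ≠ 0)
    (hxy : y ^ 2 = ((x * a * b : ℚ) : ℚ_[p])) :
    padicValRat p x + padicValRat p a + padicValRat p b = 2 * y.valuation := by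
  have h0 : ((x * a * b : ℚ) : ℚ_[p]) ≠ 0 := by
    have := mul_ne_zero (mul_ne_zero hx ha) hb
    exact_mod_cast this
  have hy0 : y ≠ 0 := by
    rintro rfl
    apply h0
    rw [← hxy]
    norm_num
  have h1 : (y ^ 2).valuation = 2 * y.valuation := by
    rw [pow_two, Padic.valuation_mul hy0 hy0]
    ring
  rw [← h1, hxy, Padic.valuation_ratCast, padicValRat.mul (mul_ne_zero hx ha) hb,
    padicValRat.mul hx ha]

end val

/-- primes of good reduction: all the valuations are even if `x (x - A) (x - B)` is a square in the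
`p`-adic numbers -/
theorem goodq (p : ℕ) [hp : Fact p.Prime] (A B : ℤ) (hAB : ¬ (p : ℤ) ∣ 2 * A * B * (A - B))
    (x : ℚ) (y : ℚ_[p]) (hx : x ≠ 0) (hxA : x - A ≠ 0) (hxB : x - B ≠ 0)
    (hxy : y ^ 2 = ((x * (x - A) * (x - B) : ℚ) : ℚ_[p])) :
    Even (padicValRat p x) ∧ Even (padicValRat p (x - A)) ∧ Even (padicValRat p (x - B)) := by
  have hA : ¬ (p : ℤ) ∣ A := fun h => hAB (Dvd.dvd.mul_right (Dvd.dvd.mul_right
    (Dvd.dvd.mul_left h 2) B) _)
  have hB : ¬ (p : ℤ) ∣ B := fun h => hAB (Dvd.dvd.mul_right (Dvd.dvd.mul_left h _) _)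
  have hC : ¬ (p : ℤ) ∣ (A - B) := fun h => hAB (Dvd.dvd.mul_left h _)
  have hA0 : (A : ℚ) ≠ 0 := by
    intro h
    apply hA
    have : A = 0 := by exact_mod_cast h
    simp [this]
  have hB0 : (B : ℚ) ≠ 0 := by
    intro h
    apply hB
    have : B = 0 := by exact_mod_cast h
    simp [this]
  have hC0 : ((A : ℚ) - B) ≠ 0 := by
    intro h
    apply hC
    have : A - B = 0 := by exact_mod_cast h
    simp [this]
  have vA : padicValRat p (A : ℚ) = 0 := v_int hA
  have vB : padicValRat p (B : ℚ) = 0 := v_int hB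
  have vC : padicValRat p ((A : ℚ) - B) = 0 := by
    have := v_int (p := p) hC
    push_cast at this
    exact this
  have vA' : padicValRat p (-(A : ℚ)) = 0 := by rw [v_neg, vA]
  have vB' : padicValRat p (-(B : ℚ)) = 0 := by rw [v_neg, vB]
  have vC' : padicValRat p ((B : ℚ) - A) = 0 := by rw [← neg_sub, v_neg, vC]
  have hC0' : ((B : ℚ) - A) ≠ 0 := by
    rw [← neg_sub]
    exact neg_ne_zero.2 hC0
  have hsum := v_mul3q (p := p) hx hxA hxB hxy
  have eA : x + -(A : ℚ) = x - A := by ring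
  have eB : x + -(B : ℚ) = x - B := by ring
  rcases lt_trichotomy (padicValRat p x) 0 with h | h | h
  · have h1 : padicValRat p (x - A) = padicValRat p x := by
      rw [← eA]
      exact v_add hx (neg_ne_zero.2 hA0) (by rw [eA]; exact hxA) (by rw [vA']; exact h)
    have h2 : padicValRat p (x - B) = padicValRat p x := by
      rw [← eB]
      exact v_add hx (neg_ne_zero.2 hB0) (by rw [eB]; exact hxB) (by rw [vB']; exact h)
    rw [h1, h2] at hsum ⊢
    have : Even (padicValRat p x) := by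
      rw [Int.even_iff]
      omega
    exact ⟨this, this, this⟩
  · have h1 : 0 ≤ padicValRat p (x - A) := by
      rw [← eA]
      have := padicValRat.min_le_padicValRat_add (p := p) (q := x) (r := -(A : ℚ))
        (by rw [eA]; exact hxA)
      rw [h, vA', min_self] at this
      exact this
    have h2 : 0 ≤ padicValRat p (x - B) := by
      rw [← eB]
      have := padicValRat.min_le_padicValRat_add (p := p) (q := x) (r := -(B : ℚ))
        (by rw [eB]; exact hxB)
      rw [h, vB', min_self] at this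
      exact this
    rw [h] at hsum ⊢
    rcases h1.eq_or_lt with h3 | h3
    · rw [← h3] at hsum ⊢
      refine ⟨Even.zero, Even.zero, ?_⟩
      rw [Int.even_iff]
      omega
    · have h4 : padicValRat p (x - B) = 0 := by
        have e : ((A : ℚ) - B) + (x - A) = x - B := by ring
        rw [← e, v_add hC0 hxA (by rw [e]; exact hxB) (by rw [vC]; exact h3), vC]
      rw [h4] at hsum ⊢
      refine ⟨Even.zero, ?_, Even.zero⟩
      rw [Int.even_iff]
      omega
  · have h1 : padicValRat p (x - A) = 0 := by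
      have e : -(A : ℚ) + x = x - A := by ring
      rw [← e, v_add (neg_ne_zero.2 hA0) hx (by rw [e]; exact hxA) (by rw [vA']; exact h), vA']
    have h2 : padicValRat p (x - B) = 0 := by
      have e : -(B : ℚ) + x = x - B := by ring
      rw [← e, v_add (neg_ne_zero.2 hB0) hx (by rw [e]; exact hxB) (by rw [vB']; exact h), vB']
    rw [h1, h2] at hsum ⊢
    refine ⟨?_, Even.zero, Even.zero⟩
    rw [Int.even_iff]
    omega

/-- primes that divide `A` exactly once -/
theorem locq (p : ℕ) [hpf : Fact p.Prime] (A B : ℤ) (hp2 : p ≠ 2) (hpA : (p : ℤ) ∣ A)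
    (hpA2 : ¬ (p : ℤ) ^ 2 ∣ A) (hpB : ¬ (p : ℤ) ∣ B) (x : ℚ) (y : ℚ_[p]) (hx : x ≠ 0)
    (hxA : x - A ≠ 0) (hxB : x - B ≠ 0)
    (hxy : y ^ 2 = ((x * (x - A) * (x - B) : ℚ) : ℚ_[p])) :
    Even (padicValRat p (x - B)) ∧ (Even (padicValRat p x) ↔ Even (padicValRat p (x - A))) ∧
    (Even (padicValRat p x) → IsSquare ((x - B : ℚ) : ℚ_[p])) ∧
    (¬ Even (padicValRat p x) → IsSquare ((-B * (x - B) : ℚ) : ℚ_[p])) := by
  have hA0 : (A : ℚ) ≠ 0 := by
    intro h
    apply hpA2
    have : A = 0 := by exact_mod_cast h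
    simp [this]
  have hB0 : (B : ℚ) ≠ 0 := by
    intro h
    apply hpB
    have : B = 0 := by exact_mod_cast h
    simp [this]
  have vA : padicValRat p (A : ℚ) = 1 := by
    have hA0' : A ≠ 0 := by exact_mod_cast hA0
    rw [padicValRat.of_int]
    have h1 := (padicValInt_dvd_iff (p := p) 1 A).1 (by simpa using hpA)
    have h2 := mt (padicValInt_dvd_iff (p := p) 2 A).2 hpA2
    push Not at h2
    have h3 := h2.2
    rcases h1 with h1 | h1
    · exact absurd h1 hA0'
    · omega
  have vB : padicValRat p (B : ℚ) = 0 := v_int hpB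
  have vA' : padicValRat p (-(A : ℚ)) = 1 := by rw [v_neg, vA]
  have vB' : padicValRat p (-(B : ℚ)) = 0 := by rw [v_neg, vB]
  have hsum := v_mul3q (p := p) hx hxA hxB hxy
  have eA : x + -(A : ℚ) = x - A := by ring
  have eB : x + -(B : ℚ) = x - B := by ring
  have hxc : ((x : ℚ) : ℚ_[p]) ≠ 0 := by exact_mod_cast hx
  -- squares
  have sqA : padicValRat p x < 1 → ∃ u : ℚ_[p], u ≠ 0 ∧ ((x - A : ℚ) : ℚ_[p]) = x * u ^ 2 := by
    intro h
    have h1 : 0 < padicValRat p (-(A : ℚ) / x) := by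
      rw [padicValRat.div (neg_ne_zero.2 hA0) hx, vA']
      omega
    obtain ⟨u, hu⟩ := isSquare_one_add_rat hp2 (-(A : ℚ) / x) (Or.inr h1)
    have h2 : ((x - A : ℚ) : ℚ_[p]) = x * u ^ 2 := by
      rw [pow_two, ← hu, ← Rat.cast_mul]
      congr 1
      field_simp
      ring
    refine ⟨u, ?_, h2⟩
    rintro rfl
    have h3 : ((x - A : ℚ) : ℚ_[p]) ≠ 0 := by exact_mod_cast hxA
    apply h3
    rw [h2]
    ring
  have hyc : y ^ 2 = x * ((x - A : ℚ) : ℚ_[p]) * ((x - B : ℚ) : ℚ_[p]) := by
    rw [hxy, Rat.cast_mul, Rat.cast_mul]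
  rcases lt_trichotomy (padicValRat p x) 0 with h | h | h
  · have h1 : padicValRat p (x - A) = padicValRat p x := by
      rw [← eA]
      exact v_add hx (neg_ne_zero.2 hA0) (by rw [eA]; exact hxA) (by rw [vA']; omega)
    have h2 : padicValRat p (x - B) = padicValRat p x := by
      rw [← eB]
      exact v_add hx (neg_ne_zero.2 hB0) (by rw [eB]; exact hxB) (by rw [vB']; exact h)
    obtain ⟨u, hu0, hu⟩ := sqA (by omega)
    have hev : Even (padicValRat p x) := by
      rw [h1, h2] at hsum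
      rw [Int.even_iff]
      omega
    rw [h1, h2]
    refine ⟨hev, Iff.rfl, fun _ => ?_, fun h => absurd hev h⟩
    -- x - B = (y / (x u)) ^ 2
    refine ⟨y / (x * u), ?_⟩
    rw [← pow_two, div_pow, hyc, hu]
    field_simp
  · have h1 : padicValRat p (x - A) = 0 := by
      rw [← eA, v_add hx (neg_ne_zero.2 hA0) (by rw [eA]; exact hxA) (by rw [vA', h]; norm_num), h]
    obtain ⟨u, hu0, hu⟩ := sqA (by omega)
    rw [h, h1] at hsum ⊢
    refine ⟨?_, Iff.rfl, fun _ => ?_, fun h => absurd Even.zero h⟩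
    · rw [Int.even_iff]
      omega
    · refine ⟨y / (x * u), ?_⟩
      rw [← pow_two, div_pow, hyc, hu]
      field_simp
  · have h1 : padicValRat p (x - B) = 0 := by
      have e : -(B : ℚ) + x = x - B := by ring
      rw [← e, v_add (neg_ne_zero.2 hB0) hx (by rw [e]; exact hxB) (by rw [vB']; exact h), vB']
    have hodd : ¬ Even (padicValRat p x) ∧ ¬ Even (padicValRat p (x - A)) := by
      rw [h1] at hsum
      rcases eq_or_ne (padicValRat p x) 1 with h2 | h2
      · rw [h2] at hsum ⊢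
        refine ⟨by decide, ?_⟩
        rw [Int.even_iff]
        omega
      · have h3 : padicValRat p (x - A) = 1 := by
          have e : -(A : ℚ) + x = x - A := by ring
          rw [← e, v_add (neg_ne_zero.2 hA0) hx (by rw [e]; exact hxA) (by rw [vA']; omega), vA']
        rw [h3] at hsum ⊢
        refine ⟨?_, by decide⟩
        rw [Int.even_iff]
        omega
    refine ⟨by rw [h1]; exact Even.zero, ⟨fun h => absurd h hodd.1, fun h => absurd h hodd.2⟩,
      fun h => absurd h hodd.1, fun _ => ?_⟩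
    have h4 : 0 < padicValRat p (-x / (B : ℚ)) := by
      rw [padicValRat.div (neg_ne_zero.2 hx) hB0, vB, v_neg]
      omega
    obtain ⟨u, hu⟩ := isSquare_one_add_rat hp2 (-x / (B : ℚ)) (Or.inr h4)
    refine ⟨((B : ℚ) : ℚ_[p]) * u, ?_⟩
    have : ((B : ℚ) : ℚ_[p]) * u * (((B : ℚ) : ℚ_[p]) * u) = ((B : ℚ) : ℚ_[p]) ^ 2 * (u * u) := by
      ring
    rw [this, ← hu, ← Rat.cast_pow, ← Rat.cast_mul]
    congr 1
    field_simp
    ring

end Run7.h318.SH
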