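import Pool.Agent.W342.RK2.LocL
import Pool.Agent.W262.SH.Stm
import Pool.Agent.Run7.h318.SH.Loc

/-!
# The local conditions LOCL2

As `Pool/Agent/W342/RK2/LocL.lean`, but `x (x - A) (x - B)` is only a square in the `p`-adic numbers.
-/

set_option autoImplicit false

namespace Run7.h318.SH

open Pool.Agent.W262.RK Pool.Agent.W22.RK Pool.Agent.W342.RK2

lemma sub_sub_sub_cancel_right_aux (x A B : ℚ) : x - A - (B - A) = x - B := by ring

section loc

variable {p : ℕ} [hp : Fact p.Prime]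

/-- the ordinate -/
lemma exists_y {x A B : ℚ} {e1 e2 : ℤ} (he1 : e1 ≠ 0) (he2 : e2 ≠ 0)
    (h1 : IsSquare ((x * e1 : ℚ) : ℚ_[p])) (h2 : IsSquare (((x - A) * e2 : ℚ) : ℚ_[p]))
    (h3 : IsSquare (((x - B) * (e1 * e2) : ℚ) : ℚ_[p])) :
    ∃ y : ℚ_[p], y ^ 2 = ((x * (x - A) * (x - B) : ℚ) : ℚ_[p]) := by
  obtain ⟨u, hu⟩ := h1
  obtain ⟨v, hv⟩ := h2
  obtain ⟨w, hw⟩ := h3
  have h1c : ((e1 : ℤ) : ℚ_[p]) ≠ 0 := by exact_mod_cast he1
  have h2c : ((e2 : ℤ) : ℚ_[p]) ≠ 0 := by exact_mod_cast he2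
  refine ⟨u * v * w / (e1 * e2), ?_⟩
  have e : (u * v * w / (e1 * e2)) ^ 2 = (u * u) * (v * v) * (w * w) / (e1 * e2) ^ 2 := by
    rw [div_pow]
    ring
  rw [e, ← hu, ← hv, ← hw]
  push_cast
  field_simp

/-- the third square class -/
lemma thirdq {x a b e1 e2 : ℚ} {y : ℚ_[p]} (hx : x ≠ 0) (ha : a ≠ 0) (he1 : e1 ≠ 0) (he2 : e2 ≠ 0)
    (hxy : y ^ 2 = ((x * a * b : ℚ) : ℚ_[p]))
    (h1 : IsSquare ((x * e1 : ℚ) : ℚ_[p])) (h2 : IsSquare ((a * e2 : ℚ) : ℚ_[p])) :
    IsSquare ((b * (e1 * e2) : ℚ) : ℚ_[p]) := by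
  obtain ⟨u, hu⟩ := h1
  obtain ⟨w, hw⟩ := h2
  have hxc : ((x : ℚ) : ℚ_[p]) ≠ 0 := by exact_mod_cast hx
  have hac : ((a : ℚ) : ℚ_[p]) ≠ 0 := by exact_mod_cast ha
  have h1c : ((e1 : ℚ) : ℚ_[p]) ≠ 0 := by exact_mod_cast he1
  have h2c : ((e2 : ℚ) : ℚ_[p]) ≠ 0 := by exact_mod_cast he2
  push_cast at hu hw
  have hu0 : u ≠ 0 := by
    rintro rfl
    rw [mul_zero] at hu
    exact (mul_ne_zero hxc h1c) hu
  have hw0 : w ≠ 0 := by
    rintro rfl
    rw [mul_zero] at hw
    exact (mul_ne_zero hac h2c) hw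
  have hyc : y ^ 2 = x * ((a : ℚ) : ℚ_[p]) * ((b : ℚ) : ℚ_[p]) := by
    rw [hxy, Rat.cast_mul, Rat.cast_mul]
  refine ⟨y * e1 * e2 / (u * w), ?_⟩
  rw [← pow_two, div_pow]
  have e : (u * w) ^ 2 = (x : ℚ_[p]) * e1 * (a * e2) := by
    rw [hu, hw]
    ring
  rw [e, mul_pow, mul_pow, hyc]
  push_cast
  field_simp

end loc

/-- LOCL2: the local conditions for `p`-adic points with a rational abscissa -/
theorem locl2 : Pool.Agent.W262.SH.LOCL2 := by
  intro c κ neg p hpf A B hp2 hκ hL e1 e2 he1 he2 hsol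
  obtain ⟨x, hx, hxA', hxB', hs1, hs2, hthird⟩ := hsol
  have hxA : x - A ≠ 0 := sub_ne_zero.2 hxA'
  have hxB : x - B ≠ 0 := sub_ne_zero.2 hxB'
  have hq1 := not_sq_of_squarefree (p := p) he1
  have hq2 := not_sq_of_squarefree (p := p) he2
  have he10 : e1 ≠ 0 := by rintro rfl; exact hq1 (dvd_zero _)
  have he20 : e2 ≠ 0 := by rintro rfl; exact hq2 (dvd_zero _)
  obtain ⟨y, hxy⟩ := exists_y he10 he20 hs1 hs2 hthird
  unfold LocH at hL
  unfold LL
  by_cases c0 : c = 0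
  · -- class 0
    rw [if_pos c0] at hL ⊢
    obtain ⟨hA, hA2, hB, hj⟩ := hL
    obtain ⟨-, -, hsq1, hsq2⟩ := locq p A B hp2 hA hA2 hB x y hx hxA hxB hxy
    have hxBc : ((x - B : ℚ) : ℚ_[p]) ≠ 0 := by exact_mod_cast hxB
    have hnB : ¬ (p : ℤ) ∣ -B := not_dvd_neg hB
    by_cases hev : Even (padicValRat p x)
    · have hv := (par hx hq1 hs1).1 hev
      have h1 : IsSquare ((e1 * e2 : ℚ) : ℚ_[p]) := by
        obtain ⟨u, hu⟩ := hthird
        obtain ⟨w, hw⟩ := hsq1 hev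
        refine ⟨u / w, ?_⟩
        have hw0 : w ≠ 0 := by
          rintro rfl
          rw [mul_zero] at hw
          exact hxBc hw
        field_simp
        rw [pow_two, pow_two, ← hu, ← hw]
        push_cast
        ring
      obtain ⟨k1, k2⟩ := cmp hq1 hq2 h1
      refine ⟨k1, ?_⟩
      rw [hv, k2]
      simp
    · have hv : dv p e1 = true := by
        have := mt (par hx hq1 hs1).2 hev
        simpa using this
      have h1 : IsSquare ((e1 * ((e2 * -B : ℤ) : ℚ) : ℚ) : ℚ_[p]) := by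
        obtain ⟨u, hu⟩ := hthird
        obtain ⟨w, hw⟩ := hsq2 hev
        have hBc : ((B : ℤ) : ℚ_[p]) ≠ 0 := by
          intro h
          apply hB
          have : B = 0 := by exact_mod_cast h
          simp [this]
        push_cast at hw hu hxBc
        refine ⟨u * w / (x - B), ?_⟩
        have : u * w / ((x : ℚ_[p]) - B) * (u * w / (x - B)) =
            (u * u) * (w * w) / ((x - B) * (x - B)) := by
          rw [div_mul_div_comm]
          ring
        rw [this, ← hu, ← hw]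
        push_cast
        field_simp
      obtain ⟨k1, k2⟩ := cmp hq1 (not_sq_mul_unit hq2 hnB) h1
      rw [dv_mul_unit hnB] at k1
      rw [sgn_mul_unit hq2 hnB] at k2
      have k3 := sg0_eq_false hj
      rw [sg0_mul (hκ 0) hnB] at k3
      refine ⟨k1, ?_⟩
      rw [k2, hv]
      revert k3
      generalize sg0 p (κ 0) = s
      generalize sg0 p (-B) = t
      generalize sgn p e2 = r
      revert s t r
      decide
  rw [if_neg c0] at hL ⊢
  by_cases c1 : c = 1
  · -- class 1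
    rw [if_pos c1] at hL ⊢
    obtain ⟨hB, hB2, hA, hj⟩ := hL
    obtain ⟨-, -, hsq1, hsq2⟩ := locq p B A hp2 hB hB2 hA x y hx hxB hxA
      (by rw [hxy]; congr 1; ring)
    have hnA : ¬ (p : ℤ) ∣ -A := not_dvd_neg hA
    by_cases hev : Even (padicValRat p x)
    · have hv := (par hx hq1 hs1).1 hev
      have h1 : IsSquare (((x - A) * ((1 : ℤ) : ℚ) : ℚ) : ℚ_[p]) := by
        have := hsq1 hev
        push_cast at this ⊢
        rwa [mul_one]
      obtain ⟨k1, k2⟩ := cmpx hxA hq2 (not_sq_of_unit not_dvd_one) hs2 h1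
      rw [dv_unit not_dvd_one] at k1
      rw [sgn_unit not_dvd_one, sg0_one] at k2
      exact ⟨k1, by rw [k2, hv]; simp⟩
    · have hv : dv p e1 = true := by
        have := mt (par hx hq1 hs1).2 hev
        simpa using this
      have h1 : IsSquare (((x - A) * ((-A : ℤ) : ℚ) : ℚ) : ℚ_[p]) := by
        have := hsq2 hev
        rw [mul_comm] at this
        push_cast at this ⊢
        exact this
      obtain ⟨k1, k2⟩ := cmpx hxA hq2 (not_sq_of_unit hnA) hs2 h1
      rw [dv_unit hnA] at k1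
      rw [sgn_unit hnA] at k2
      have k3 := sg0_eq_false hj
      rw [sg0_mul (hκ 0) hnA] at k3
      refine ⟨k1, ?_⟩
      rw [k2, hv]
      revert k3
      generalize sg0 p (κ 0) = s
      generalize sg0 p (-A) = t
      revert s t
      decide
  rw [if_neg c1] at hL ⊢
  by_cases c2 : c = 2
  · -- class 2
    rw [if_pos c2] at hL ⊢
    obtain ⟨hC, hC2, hA, hj⟩ := hL
    have hC' : (p : ℤ) ∣ B - A := by rw [← neg_sub]; exact hC.neg_right
    have hC2' : ¬ (p : ℤ) ^ 2 ∣ B - A := by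
      intro h
      apply hC2
      rw [← neg_sub]
      exact h.neg_right
    have hnA : ¬ (p : ℤ) ∣ -A := not_dvd_neg hA
    obtain ⟨-, -, hsq1, hsq2⟩ := locq p (B - A) (-A) hp2 hC' hC2' hnA (x - A) y hxA
      (by push_cast; rw [sub_sub_sub_cancel_right_aux]; exact hxB)
      (by push_cast; rw [sub_neg_eq_add, sub_add_cancel]; exact hx)
      (by rw [hxy]; congr 1; push_cast; ring)
    by_cases hev : Even (padicValRat p (x - A))
    · have hv := (par hxA hq2 hs2).1 hev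
      have h1 : IsSquare ((x * ((1 : ℤ) : ℚ) : ℚ) : ℚ_[p]) := by
        have := hsq1 hev
        push_cast at this ⊢
        rw [mul_one]
        convert this using 1
        ring
      obtain ⟨k1, k2⟩ := cmpx hx hq1 (not_sq_of_unit not_dvd_one) hs1 h1
      rw [dv_unit not_dvd_one] at k1
      rw [sgn_unit not_dvd_one, sg0_one] at k2
      exact ⟨k1, by rw [k2, hv]; simp⟩
    · have hv : dv p e2 = true := by
        have := mt (par hxA hq2 hs2).2 hev
        simpa using this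
      have h1 : IsSquare ((x * (A : ℚ) : ℚ) : ℚ_[p]) := by
        have := hsq2 hev
        push_cast at this ⊢
        convert this using 1
        ring
      obtain ⟨k1, k2⟩ := cmpx hx hq1 (not_sq_of_unit hA) hs1 h1
      rw [dv_unit hA] at k1
      rw [sgn_unit hA] at k2
      have k3 := sg0_eq_false hj
      rw [sg0_mul (hκ 0) hA] at k3
      refine ⟨k1, ?_⟩
      rw [k2, hv]
      revert k3
      generalize sg0 p (κ 0) = s
      generalize sg0 p A = t
      revert s t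
      decide
  rw [if_neg c2] at hL ⊢
  -- class 3
  obtain ⟨hA, hB, hA2, hB2, hC2, jA, jB, jC⟩ := hL
  have hC : (p : ℤ) ∣ A - B := dvd_sub hA hB
  have hpz : ((p : ℤ)) ≠ 0 := by exact_mod_cast hpf.out.ne_zero
  have hpc : ((p : ℕ) : ℚ_[p]) ≠ 0 := by exact_mod_cast hpf.out.ne_zero
  have vA := v_of_exact hA hA2
  have vB := v_of_exact hB hB2
  have vC := v_of_exact hC hC2
  push_cast at vC
  have hA0 : (A : ℚ) ≠ 0 := by
    intro h
    rw [h] at vA
    simp at vA
  have hB0 : (B : ℚ) ≠ 0 := by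
    intro h
    rw [h] at vB
    simp at vB
  have hC0 : (A : ℚ) - B ≠ 0 := by
    intro h
    rw [h] at vC
    simp at vC
  obtain ⟨A1, rfl⟩ := hA
  obtain ⟨B1, rfl⟩ := hB
  have hA1 : ¬ (p : ℤ) ∣ A1 := fun h => hA2 (by rw [pow_two]; exact mul_dvd_mul_left _ h)
  have hB1 : ¬ (p : ℤ) ∣ B1 := fun h => hB2 (by rw [pow_two]; exact mul_dvd_mul_left _ h)
  have hC1 : ¬ (p : ℤ) ∣ A1 - B1 := fun h => hC2 (by
    rw [pow_two, ← mul_sub]; exact mul_dvd_mul_left _ h)
  rw [Int.mul_ediv_cancel_left _ hpz] at jA jB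
  rw [← mul_sub, Int.mul_ediv_cancel_left _ hpz] at jC
  have sgj : ∀ k : ℤ, jacobiSym k p = (if neg then -1 else 1) → sg0 p k = neg := by
    intro k hk
    unfold sg0
    rw [hk]
    cases neg <;> decide
  have kA := sgj _ jA
  have kB := sgj _ jB
  have kC := sgj _ jC
  rw [sg0_mul (hκ 0) hA1] at kA
  rw [sg0_mul (hκ 1) hB1] at kB
  rw [sg0_mul (hκ 2) hC1] at kC
  have m01 := sg0_mul (hκ 0) (hκ 1)
  have m02 := sg0_mul (hκ 0) (hκ 2)
  have m0 := sg0_neg (hκ 0)
  have m2 := sg0_neg (hκ 2)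
  have hpq : ((p : ℚ)) ≠ 0 := by exact_mod_cast hpf.out.ne_zero
  have hnA0 : -((p * A1 : ℤ) : ℚ) ≠ 0 := neg_ne_zero.2 hA0
  have hnB0 : -((p * B1 : ℤ) : ℚ) ≠ 0 := neg_ne_zero.2 hB0
  have fin : ∀ E F : ℤ, ¬ (p : ℤ) ^ 2 ∣ E → ¬ (p : ℤ) ^ 2 ∣ F →
      IsSquare ((x * (E : ℚ) : ℚ) : ℚ_[p]) →
      IsSquare (((x - (p * A1 : ℤ)) * (F : ℚ) : ℚ) : ℚ_[p]) →
      dv p e1 = dv p E ∧ sgn p e1 = sgn p E ∧ dv p e2 = dv p F ∧ sgn p e2 = sgn p F := by
    intro E F hE hF h1 h2
    obtain ⟨k1, k2⟩ := cmpx hx hq1 hE hs1 h1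
    obtain ⟨k3, k4⟩ := cmpx hxA hq2 hF hs2 h2
    exact ⟨k1, k2, k3, k4⟩
  have hsum := v_mul3q (p := p) hx hxA hxB hxy
  rcases lt_or_ge (padicValRat p x) 1 with hv | hv
  · -- all squares
    have h1 : IsSquare (((x - (p * A1 : ℤ)) * x : ℚ) : ℚ_[p]) := by
      apply near hp2 hx
      right
      have e : x - ((p * A1 : ℤ) : ℚ) - x = -((p * A1 : ℤ) : ℚ) := by ring
      rw [e, v_neg, vA]
      exact hv
    have h2 : IsSquare (((x - (p * B1 : ℤ)) * x : ℚ) : ℚ_[p]) := by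
      apply near hp2 hx
      right
      have e : x - ((p * B1 : ℤ) : ℚ) - x = -((p * B1 : ℤ) : ℚ) := by ring
      rw [e, v_neg, vB]
      exact hv
    have h3 : IsSquare ((x : ℚ) : ℚ_[p]) :=
      sq_cancel hx (thirdq hxA hxB hx hx (by rw [hxy]; congr 1; ring) h1 h2)
    have h4 : IsSquare (((x - (p * A1 : ℤ)) : ℚ) : ℚ_[p]) := by
      apply sq_cancel hx
      have := sq_mul h1 h3
      rwa [mul_assoc] at this
    obtain ⟨k1, k2, k3, k4⟩ := fin 1 1 (not_sq_of_unit not_dvd_one) (not_sq_of_unit not_dvd_one)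
      (by push_cast at h3 ⊢; rwa [mul_one]) (by push_cast at h4 ⊢; rwa [mul_one])
    rw [k1, k2, k3, k4, dv_unit not_dvd_one, sgn_unit not_dvd_one, sg0_one]
    simp
  rcases hv.lt_or_eq with hv | hv
  · -- x = AB
    have h1 : IsSquare (((x - (p * A1 : ℤ)) * (-((p * A1 : ℤ) : ℚ)) : ℚ) : ℚ_[p]) := by
      apply near hp2 hnA0
      right
      have e : x - ((p * A1 : ℤ) : ℚ) - -((p * A1 : ℤ) : ℚ) = x := by ring
      rw [e, v_neg, vA]
      exact hv
    have h2 : IsSquare (((x - (p * B1 : ℤ)) * (-((p * B1 : ℤ) : ℚ)) : ℚ) : ℚ_[p]) := by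
      apply near hp2 hnB0
      right
      have e : x - ((p * B1 : ℤ) : ℚ) - -((p * B1 : ℤ) : ℚ) = x := by ring
      rw [e, v_neg, vB]
      exact hv
    have h3 := thirdq hxA hxB hnA0 hnB0 (by rw [hxy]; congr 1; ring) h1 h2
    have h4 : IsSquare ((x * ((A1 * B1 : ℤ) : ℚ) : ℚ) : ℚ_[p]) := by
      apply sq_cancel hpq
      convert h3 using 2
      push_cast
      ring
    have hnA1 := not_dvd_neg hA1
    have hF : ¬ (p : ℤ) ^ 2 ∣ p * (-A1) := by
      rw [mul_neg, dvd_neg]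
      exact hA2
    obtain ⟨k1, k2, k3, k4⟩ := fin (A1 * B1) (p * (-A1)) (not_sq_of_unit (not_dvd_mul hA1 hB1)) hF
      h4 (by convert h1 using 2; push_cast; ring)
    rw [k1, k2, k3, k4, dv_unit (not_dvd_mul hA1 hB1), dv_mul, sgn_mul,
      sgn_unit (not_dvd_mul hA1 hB1), sg0_mul hA1 hB1, sg0_neg hA1, m01, m02, m0, m2]
    clear jA jB jC sgj kC fin
    revert kA kB
    generalize sg0 p A1 = s1
    generalize sg0 p B1 = s2
    generalize sg0 p (κ 0) = t1
    generalize sg0 p (κ 1) = t2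
    generalize sg0 p (κ 2) = t3
    generalize sg0 p (-1) = t4
    revert neg s1 s2 t1 t2 t3 t4
    decide
  · by_cases hv2 : 1 < padicValRat p (x - (p * A1 : ℤ))
    · have h1 : IsSquare ((x * ((p * A1 : ℤ) : ℚ) : ℚ) : ℚ_[p]) := by
        apply near hp2 hA0
        right
        rw [vA]
        exact hv2
      have h2 : IsSquare (((x - (p * B1 : ℤ)) * ((p * A1 : ℤ) - (p * B1 : ℤ)) : ℚ) : ℚ_[p]) := by
        apply near hp2 hC0
        right
        have e : x - ((p * B1 : ℤ) : ℚ) - (((p * A1 : ℤ) : ℚ) - ((p * B1 : ℤ) : ℚ)) =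
          x - ((p * A1 : ℤ) : ℚ) := by ring
        rw [e]
        rw [vC]
        exact hv2
      have h3 := thirdq (b := x - ((p * A1 : ℤ) : ℚ)) hx hxB hA0 hC0 (by rw [hxy]; congr 1; ring) h1 h2
      have h4 : IsSquare (((x - (p * A1 : ℤ)) * ((A1 * (A1 - B1) : ℤ) : ℚ) : ℚ) : ℚ_[p]) := by
        apply sq_cancel hpq
        convert h3 using 2
        push_cast
        ring
      obtain ⟨k1, k2, k3, k4⟩ := fin (p * A1) (A1 * (A1 - B1)) hA2
        (not_sq_of_unit (not_dvd_mul hA1 hC1)) h1 h4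
      rw [k1, k2, k3, k4, dv_unit (not_dvd_mul hA1 hC1), dv_mul, sgn_mul,
        sgn_unit (not_dvd_mul hA1 hC1), sg0_mul hA1 hC1, m01, m02, m0, m2]
      clear jA jB jC sgj kB fin
      revert kA kC
      generalize sg0 p A1 = s1
      generalize sg0 p (A1 - B1) = s2
      generalize sg0 p (κ 0) = t1
      generalize sg0 p (κ 1) = t2
      generalize sg0 p (κ 2) = t3
      generalize sg0 p (-1) = t4
      revert neg s1 s2 t1 t2 t3 t4
      decide
    · have hge : ∀ D : ℚ, padicValRat p D = 1 → x - D ≠ 0 → 1 ≤ padicValRat p (x - D) := by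
        intro D hD h
        have := padicValRat.min_le_padicValRat_add (p := p) (q := x) (r := -D)
          (by rwa [← sub_eq_add_neg])
        rw [← sub_eq_add_neg, v_neg, hD, ← hv, min_self] at this
        exact this
      have hgA := hge _ vA hxA
      have hgB := hge _ vB hxB
      have hv3 : 1 < padicValRat p (x - (p * B1 : ℤ)) := by omega
      have h1 : IsSquare ((x * ((p * B1 : ℤ) : ℚ) : ℚ) : ℚ_[p]) := by
        apply near hp2 hB0
        right
        rw [vB]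
        exact hv3
      have hC0' : ((p * (-(A1 - B1)) : ℤ) : ℚ) ≠ 0 := by
        intro h
        apply hC0
        push_cast at h ⊢
        linarith
      have h2 : IsSquare (((x - (p * A1 : ℤ)) * ((p * (-(A1 - B1)) : ℤ) : ℚ) : ℚ) : ℚ_[p]) := by
        apply near hp2 hC0'
        right
        have e : x - ((p * A1 : ℤ) : ℚ) - ((p * (-(A1 - B1)) : ℤ) : ℚ) =
          x - ((p * B1 : ℤ) : ℚ) := by push_cast; ring
        have e3 : ((p * (-(A1 - B1)) : ℤ) : ℚ) =
            -(((p * A1 : ℤ) : ℚ) - ((p * B1 : ℤ) : ℚ)) := by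
          push_cast
          ring
        rw [e, e3, v_neg, vC]
        exact hv3
      have hnC1 := not_dvd_neg hC1
      have hF : ¬ (p : ℤ) ^ 2 ∣ p * (-(A1 - B1)) := by
        rw [mul_neg, dvd_neg, mul_sub]
        exact hC2
      obtain ⟨k1, k2, k3, k4⟩ := fin (p * B1) (p * (-(A1 - B1))) hB2 hF h1 h2
      rw [k1, k2, k3, k4, dv_mul, dv_mul, sgn_mul, sgn_mul, sg0_neg hC1, m01, m02, m0, m2]
      clear jA jB jC sgj kA fin
      revert kB kC
      generalize sg0 p B1 = s1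
      generalize sg0 p (A1 - B1) = s2
      generalize sg0 p (κ 0) = t1
      generalize sg0 p (κ 1) = t2
      generalize sg0 p (κ 2) = t3
      generalize sg0 p (-1) = t4
      revert neg s1 s2 t1 t2 t3 t4
      decide

end Run7.h318.SH
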