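import Pool.Agent.TH841.SH.Loc
import Pool.Agent.Run7.h318.SH.Desc5

/-!
# Selmer homomorphisms and square classes: SH1
-/

set_option autoImplicit false

namespace Run7.h318.SH

open WeierstrassCurve

open scoped Classical

open Pool.Agent.W262.SH (QB Pt act IsCoc IsCob LocTriv shaCoc cob Sha E SelS LocSol IsSel SH1 SH2)

open Pool.Agent.TH841.SH (IsR IsX gf isX_zero isX_some not_isX kum loc_step)

lemma isR_E (A B : ℤ) : IsR (E A B) 0 (A : ℚ) (B : ℚ) := by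
  refine ⟨rfl, ?_, rfl, ?_, ?_⟩
  · show -((A : ℚ) + B) = _
    ring
  · show (A : ℚ) * B = _
    ring
  · show (0 : ℚ) = _
    ring

section padic

variable {p : ℕ} [hp : Fact p.Prime]

lemma sq_near (hp2 : p ≠ 2) {x x' c : ℚ_[p]} (hx : x ≠ 0) (h : ‖x' - x‖ < ‖x‖)
    (hs : IsSquare (x * c)) : IsSquare (x' * c) := by
  have h1 : IsSquare (1 + (x' - x) / x) := by
    apply Pool.Agent.W22.RK.isSquare_one_add hp2
    rw [norm_div]
    exact (div_lt_one (norm_pos_iff.2 hx)).2 h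
  have h2 : x' * c = (1 + (x' - x) / x) * (x * c) := by
    field_simp
    ring
  rw [h2]
  exact h1.mul hs

/-- a point over `ℚ_p` with square coordinates -/
lemma exists_pt (hp2 : p ≠ 2) (A B : ℤ) : ∃ x y : ℚ_[p], y ≠ 0 ∧
    y ^ 2 = x * (x - A) * (x - B) ∧ IsSquare x ∧ IsSquare (x - A) ∧ IsSquare (x - B) := by
  have hpc : ((p : ℕ) : ℚ_[p]) ≠ 0 := by exact_mod_cast hp.out.ne_zero
  set x : ℚ_[p] := ((p : ℚ_[p]) * p)⁻¹ with hx
  have hx0 : x ≠ 0 := inv_ne_zero (mul_ne_zero hpc hpc)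
  have hnx : 1 < ‖x‖ := by
    rw [hx, norm_inv, norm_mul, Padic.norm_p]
    have h1 : (1 : ℝ) < p := by exact_mod_cast hp.out.one_lt
    rw [← mul_inv, inv_inv]
    nlinarith
  have hsx : IsSquare x := ⟨(p : ℚ_[p])⁻¹, by rw [hx, mul_inv]⟩
  have hs : ∀ C : ℤ, IsSquare (x - C) := by
    intro C
    have h1 : ‖(x - C) - x‖ < ‖x‖ := by
      have e : (x - (C : ℚ_[p])) - x = -C := by ring
      rw [e, norm_neg]
      exact (Padic.norm_int_le_one C).trans_lt hnx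
    have := sq_near hp2 (c := 1) hx0 h1 (by rwa [mul_one])
    rwa [mul_one] at this
  have hne : ∀ C : ℤ, x - C ≠ 0 := by
    intro C h
    have h1 : x = C := sub_eq_zero.1 h
    rw [h1] at hnx
    exact absurd (Padic.norm_int_le_one C) (not_le.2 hnx)
  obtain ⟨u, hu⟩ := hsx
  obtain ⟨v, hv⟩ := hs A
  obtain ⟨w, hw⟩ := hs B
  refine ⟨x, u * v * w, ?_, ?_, ⟨u, hu⟩, ⟨v, hv⟩, ⟨w, hw⟩⟩
  · intro h
    have h1 : x * (x - A) * (x - B) = (u * v * w) * (u * v * w) := by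
      rw [hv, hw]
      nth_rw 1 [hu]
      ring
    rw [h, mul_zero] at h1
    exact mul_ne_zero (mul_ne_zero hx0 (hne A)) (hne B) h1
  · rw [hv, hw]
    nth_rw 1 [hu]
    ring

/-- from a `p`-adic abscissa to a rational one -/
lemma locSol_of (hp2 : p ≠ 2) {A B e1 e2 : ℤ} {x : ℚ_[p]} (hx : x ≠ 0) (hxA : x - A ≠ 0)
    (hxB : x - B ≠ 0) (h1 : IsSquare (x * e1)) (h2 : IsSquare ((x - A) * e2))
    (h3 : IsSquare ((x - B) * (e1 * e2))) : LocSol p A B e1 e2 := by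
  set ε : ℝ := min ‖x‖ (min ‖x - A‖ ‖x - B‖) with hε
  have hε0 : 0 < ε := lt_min (norm_pos_iff.2 hx) (lt_min (norm_pos_iff.2 hxA) (norm_pos_iff.2 hxB))
  obtain ⟨r, hr⟩ := Padic.rat_dense p x hε0
  rw [norm_sub_rev] at hr
  have hr1 : ‖(r : ℚ_[p]) - x‖ < ‖x‖ := hr.trans_le (min_le_left _ _)
  have hr2 : ‖((r : ℚ_[p]) - A) - (x - A)‖ < ‖x - A‖ := by
    rw [sub_sub_sub_cancel_right]
    exact hr.trans_le ((min_le_right _ _).trans (min_le_left _ _))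
  have hr3 : ‖((r : ℚ_[p]) - B) - (x - B)‖ < ‖x - B‖ := by
    rw [sub_sub_sub_cancel_right]
    exact hr.trans_le ((min_le_right _ _).trans (min_le_right _ _))
  have hne : ∀ {a b : ℚ_[p]}, ‖a - b‖ < ‖b‖ → a ≠ 0 := by
    rintro a b h rfl
    rw [zero_sub, norm_neg] at h
    exact lt_irrefl _ h
  refine ⟨r, ?_, ?_, ?_, ?_, ?_, ?_⟩
  · rintro rfl
    exact hne hr1 (by push_cast; rfl)
  · rintro rfl
    exact hne hr2 (by push_cast; ring)
  · rintro rfl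
    exact hne hr3 (by push_cast; ring)
  · have := sq_near hp2 hx hr1 h1
    push_cast
    exact this
  · have := sq_near hp2 hxA hr2 h2
    push_cast
    exact this
  · have := sq_near hp2 hxB hr3 h3
    push_cast
    exact this

end padic

/-- the character attached to `h` and `a` -/
lemma exists_char {W : WeierstrassCurve ℚ} {a b c : ℚ} (hW : IsR W a b c) (hab : a ≠ b)
    (hac : a ≠ c) (hbc : b ≠ c) (h : (QB ≃ₐ[ℚ] QB) → Pt W QB) (h1 : IsLocallyConstant h)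
    (h2 : ∀ σ, h σ + h σ = 0) (h3 : ∀ σ τ, h (σ * τ) = h σ + h τ) :
    ∃ e : ℤ, Squarefree e ∧ ∀ s : QB, s ^ 2 = e → ∀ σ : QB ≃ₐ[ℚ] QB,
      σ s = s ↔ IsX (W.baseChange QB) (algebraMap ℚ QB a) (h σ) := by
  have hinj : Function.Injective (algebraMap ℚ QB) := (algebraMap ℚ QB).injective
  have hB := hW.base QB
  obtain ⟨e, he, hs⟩ := kum
    (fun σ => decide (¬ IsX (W.baseChange QB) (algebraMap ℚ QB a) (h σ)))
    (h1.comp (fun T => decide (¬ IsX (W.baseChange QB) (algebraMap ℚ QB a) T)))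
    (fun σ τ => by
      have h4 := hB.isX_add two_ne_zero (hinj.ne hab) (hinj.ne hac) (hinj.ne hbc) (h2 σ) (h2 τ)
      rw [h3]
      by_cases a1 : IsX (W.baseChange QB) (algebraMap ℚ QB a) (h σ) <;>
        by_cases a2 : IsX (W.baseChange QB) (algebraMap ℚ QB a) (h τ) <;>
        by_cases a3 : IsX (W.baseChange QB) (algebraMap ℚ QB a) (h σ + h τ) <;>
        simp_all)
  refine ⟨e, he, fun s hs' σ => ?_⟩
  rw [hs s hs' σ]
  simp

/-- the local condition -/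
lemma loc_cond {p : ℕ} [hp : Fact p.Prime] (hp2 : p ≠ 2) {A B : ℤ} (hA : A ≠ 0) (hB : B ≠ 0)
    (hAB : A ≠ B) {h : (QB ≃ₐ[ℚ] QB) → Pt (E A B) QB} (h2 : ∀ σ, h σ + h σ = 0)
    (hloc : LocTriv (E A B) ℚ_[p] h) {e1 e2 : ℤ} (he1 : Squarefree e1) (he2 : Squarefree e2)
    (hs1 : ∀ s : QB, s ^ 2 = e1 → ∀ σ : QB ≃ₐ[ℚ] QB,
      σ s = s ↔ IsX ((E A B).baseChange QB) (algebraMap ℚ QB 0) (h σ))
    (hs2 : ∀ s : QB, s ^ 2 = e2 → ∀ σ : QB ≃ₐ[ℚ] QB,
      σ s = s ↔ IsX ((E A B).baseChange QB) (algebraMap ℚ QB (A : ℚ)) (h σ)) :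
    LocSol p A B e1 e2 := by
  obtain ⟨s, hs⟩ := IsAlgClosed.exists_pow_nat_eq (e1 : QB) (n := 2) (by norm_num)
  obtain ⟨s', hs'⟩ := IsAlgClosed.exists_pow_nat_eq (e2 : QB) (n := 2) (by norm_num)
  have hA' : (0 : ℚ) ≠ A := by
    intro h
    apply hA
    exact_mod_cast h.symm
  have hB' : (0 : ℚ) ≠ B := by
    intro h
    apply hB
    exact_mod_cast h.symm
  have hAB' : (A : ℚ) ≠ B := by
    intro h
    apply hAB
    exact_mod_cast h
  obtain ⟨x, y, hy, hxy, q1, q2⟩ := loc_step (K := ℚ_[p]) (Ω := AlgebraicClosure ℚ_[p])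
    two_ne_zero two_ne_zero (isR_E A B) hA' hB' hAB' h h2 hloc
    (by
      obtain ⟨x, y, hy, hxy, r1, r2, r3⟩ := exists_pt hp2 A B
      refine ⟨x, y, hy, ?_, ?_, ?_, ?_⟩
      · rw [hxy, map_zero, sub_zero, map_intCast, map_intCast]
      · rwa [map_zero, sub_zero]
      · rwa [map_intCast]
      · rwa [map_intCast])
    e1 e2 s s' hs hs' (hs1 s hs) (hs2 s' hs')
  rw [map_zero, sub_zero, map_intCast, map_intCast] at hxy
  rw [map_zero, sub_zero] at q1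
  rw [map_intCast] at q2
  have hy2 : y ^ 2 ≠ 0 := pow_ne_zero 2 hy
  rw [hxy] at hy2
  have hx : x ≠ 0 := left_ne_zero_of_mul (left_ne_zero_of_mul hy2)
  have hxA : x - A ≠ 0 := right_ne_zero_of_mul (left_ne_zero_of_mul hy2)
  have hxB : x - B ≠ 0 := right_ne_zero_of_mul hy2
  refine locSol_of hp2 hx hxA hxB q1 q2 ?_
  obtain ⟨u, hu⟩ := q1
  obtain ⟨w, hw⟩ := q2
  have h1c : ((e1 : ℤ) : ℚ_[p]) ≠ 0 := by exact_mod_cast he1.ne_zero
  have h2c : ((e2 : ℤ) : ℚ_[p]) ≠ 0 := by exact_mod_cast he2.ne_zero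
  have hu0 : u ≠ 0 := by
    rintro rfl
    rw [mul_zero] at hu
    exact (mul_ne_zero hx h1c) hu
  have hw0 : w ≠ 0 := by
    rintro rfl
    rw [mul_zero] at hw
    exact (mul_ne_zero hxA h2c) hw
  refine ⟨y * e1 * e2 / (u * w), ?_⟩
  rw [← pow_two, div_pow]
  have e : (u * w) ^ 2 = x * e1 * ((x - A) * e2) := by
    rw [hu, hw]
    ring
  rw [e, mul_pow, mul_pow, hxy]
  field_simp

/-- SH1 -/
theorem sh1 : SH1 := by
  intro A B hA hB hAB hfin
  have hA' : (0 : ℚ) ≠ A := by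
    intro h
    apply hA
    exact_mod_cast h.symm
  have hB' : (0 : ℚ) ≠ B := by
    intro h
    apply hB
    exact_mod_cast h.symm
  have hAB' : (A : ℚ) ≠ B := by
    intro h
    apply hAB
    exact_mod_cast h
  have hR := isR_E A B
  have hinj : Function.Injective (algebraMap ℚ QB) := (algebraMap ℚ QB).injective
  have hex : ∀ h : (QB ≃ₐ[ℚ] QB) → Pt (E A B) QB, IsSel A B h → ∃ e : ℤ × ℤ, e ∈ SelS A B ∧
      (∀ s : QB, s ^ 2 = e.1 → ∀ σ : QB ≃ₐ[ℚ] QB,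
        σ s = s ↔ IsX ((E A B).baseChange QB) (algebraMap ℚ QB 0) (h σ)) ∧
      (∀ s : QB, s ^ 2 = e.2 → ∀ σ : QB ≃ₐ[ℚ] QB,
        σ s = s ↔ IsX ((E A B).baseChange QB) (algebraMap ℚ QB (A : ℚ)) (h σ)) := by
    rintro h ⟨h1, h2, h3, h4⟩
    obtain ⟨e1, he1, hs1⟩ := exists_char hR hA' hB' hAB' h h1 h2 h3
    obtain ⟨e2, he2, hs2⟩ := exists_char hR.swap hA'.symm hAB' hB' h h1 h2 h3
    exact ⟨(e1, e2), ⟨he1, he2, fun p _ hp2 => loc_cond hp2 hA hB hAB h2 (h4 p hp2) he1 he2 hs1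
      hs2⟩, hs1, hs2⟩
  choose F hF using hex
  set G : ((QB ≃ₐ[ℚ] QB) → Pt (E A B) QB) → ℤ × ℤ := fun h =>
    if hh : IsSel A B h then F h hh else 0 with hG
  have hmaps : ∀ h ∈ {h | IsSel A B h}, G h ∈ SelS A B := by
    intro h hh
    have hh' : IsSel A B h := hh
    simp only [hG, dif_pos hh']
    exact (hF h hh').1
  have hinjG : Set.InjOn G {h | IsSel A B h} := by
    intro h hh h' hh' heq
    have k : IsSel A B h := hh
    have k' : IsSel A B h' := hh'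
    simp only [hG, dif_pos k, dif_pos k'] at heq
    obtain ⟨-, a1, a2⟩ := hF h k
    obtain ⟨-, b1, b2⟩ := hF h' k'
    rw [← heq] at b1 b2
    obtain ⟨s, hs⟩ := IsAlgClosed.exists_pow_nat_eq ((F h k).1 : QB) (n := 2) (by norm_num)
    obtain ⟨s', hs'⟩ := IsAlgClosed.exists_pow_nat_eq ((F h k).2 : QB) (n := 2) (by norm_num)
    funext σ
    exact (hR.base QB).ext two_ne_zero (hinj.ne hA') (hinj.ne hB') (hinj.ne hAB') (k.2.1 σ)
      (k'.2.1 σ) ((a1 s hs σ).symm.trans (b1 s hs σ)) ((a2 s' hs' σ).symm.trans (b2 s' hs' σ))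
  exact ⟨Set.Finite.of_injOn hmaps hinjG hfin, Set.ncard_le_ncard_of_injOn G hmaps hinjG hfin⟩

end Run7.h318.SH
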