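import Pool.Agent.TH841.SH.Loc
import Pool.Agent.W214.RK.Half
import Pool.Agent.W505.RK.RKB
import Pool.Agent.Run7.h318.SH.Sel

/-!
# The rank, the Tate-Shafarevich group and the Selmer homomorphisms: SH2
-/

set_option autoImplicit false

namespace Run7.h318.SH

open WeierstrassCurve

open scoped Classical

open Pool.Agent.W262.SH (QB Pt act IsCoc IsCob LocTriv shaCoc cob Sha E SelS LocSol IsSel SH1 SH2)

open Pool.Agent.TH841.SH (IsR IsX gf isX_zero isX_some not_isX kum loc_step fix_mem act_some act_inj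
  act_act act_isX)

/-- locally constant functions -/
lemma lc_of_fin {X : Type*} (f : (QB ≃ₐ[ℚ] QB) → X) (s : Finset QB)
    (h : ∀ σ τ : QB ≃ₐ[ℚ] QB, (∀ x ∈ s, σ x = τ x) → f σ = f τ) : IsLocallyConstant f := by
  rw [IsLocallyConstant.iff_exists_open]
  intro σ
  let F := IntermediateField.adjoin ℚ (s : Set QB)
  have hfin : FiniteDimensional ℚ F :=
    IntermediateField.finiteDimensional_adjoin (fun x _ => Algebra.IsIntegral.isIntegral x)
  have hopen := IntermediateField.fixingSubgroup_isOpen F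
  refine ⟨(fun τ => σ⁻¹ * τ) ⁻¹' (F.fixingSubgroup : Set (QB ≃ₐ[ℚ] QB)),
    hopen.preimage (continuous_const.mul continuous_id), ?_, ?_⟩
  · show σ⁻¹ * σ ∈ F.fixingSubgroup
    rw [inv_mul_cancel]
    exact one_mem _
  · intro τ hτ
    have hτ' : σ⁻¹ * τ ∈ F.fixingSubgroup := hτ
    rw [IntermediateField.mem_fixingSubgroup_iff] at hτ'
    refine h _ _ fun x hx => ?_
    have h1 := hτ' x (IntermediateField.subset_adjoin ℚ _ hx)
    have h2 := congrArg σ h1
    rw [← AlgEquiv.mul_apply, mul_inv_cancel_left] at h2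
    exact h2

section

variable {W : WeierstrassCurve ℚ}

/-- the coboundary of a point -/
noncomputable def dl (P : Pt W QB) : (QB ≃ₐ[ℚ] QB) → Pt W QB := fun σ => act W σ.toAlgHom P - P

lemma dl_add (P Q : Pt W QB) : dl (P + Q) = dl P + dl Q := by
  funext σ
  show act W σ.toAlgHom (P + Q) - (P + Q) = (act W σ.toAlgHom P - P) + (act W σ.toAlgHom Q - Q)
  rw [map_add]
  abel

lemma dl_neg (P : Pt W QB) : dl (-P) = -dl P := by
  funext σ
  show act W σ.toAlgHom (-P) - (-P) = -(act W σ.toAlgHom P - P)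
  rw [map_neg]
  abel

lemma dl_lc (P : Pt W QB) : IsLocallyConstant (dl P) := by
  rcases P with _ | ⟨u, v, hn⟩
  · refine lc_of_fin _ ∅ fun σ τ _ => ?_
    show act W σ.toAlgHom 0 - 0 = act W τ.toAlgHom 0 - 0
    rw [map_zero, map_zero]
  · refine lc_of_fin _ {u, v} fun σ τ h => ?_
    have h1 : σ u = τ u := h u (by simp)
    have h2 : σ v = τ v := h v (by simp)
    show act W σ.toAlgHom (.some u v hn) - _ = act W τ.toAlgHom (.some u v hn) - _
    congr 1
    rw [act_some, act_some, Affine.Point.some.injEq]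
    exact ⟨h1, h2⟩

lemma dl_coc (P : Pt W QB) : IsCoc W (dl P) := by
  refine ⟨dl_lc P, fun σ τ => ?_⟩
  show act W (σ * τ).toAlgHom P - P = (act W σ.toAlgHom P - P) +
    act W σ.toAlgHom (act W τ.toAlgHom P - P)
  rw [map_sub, act_act]
  have : (σ * τ).toAlgHom = σ.toAlgHom.comp τ.toAlgHom := rfl
  rw [this]
  abel

lemma dl_loc (P : Pt W QB) (K : Type) [Field K] [Algebra ℚ K] : LocTriv W K (dl P) := by
  intro ι
  refine ⟨act W ι P, fun τ σ h => ?_⟩
  show act W ι (act W σ.toAlgHom P - P) = _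
  rw [map_sub, act_act, act_act, h]

lemma dl_sha (P : Pt W QB) : dl P ∈ shaCoc W :=
  ⟨dl_coc P, fun _ _ => dl_loc P _, dl_loc P _⟩

lemma isCob_iff {f : (QB ≃ₐ[ℚ] QB) → Pt W QB} : IsCob W f ↔ ∃ P, f = dl P :=
  ⟨fun ⟨P, hP⟩ => ⟨P, funext hP⟩, fun ⟨P, hP⟩ => ⟨P, fun σ => congrFun hP σ⟩⟩

/-- the inclusion of the rational points -/
noncomputable def inc (W : WeierstrassCurve ℚ) : Pt W ℚ →+ Pt W QB :=
  WeierstrassCurve.Affine.Point.map (Algebra.ofId ℚ QB)

lemma inc_inj : Function.Injective (inc W) := Affine.Point.map_injective _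

lemma dl_inc (P : Pt W ℚ) : dl (inc W P) = 0 := by
  funext σ
  show act W σ.toAlgHom (inc W P) - inc W P = 0
  rw [sub_eq_zero]
  rcases P with _ | ⟨u, v, hn⟩
  · rfl
  · show act W σ.toAlgHom (.some (algebraMap ℚ QB u) (algebraMap ℚ QB v)
      ((Affine.baseChange_nonsingular W (Algebra.ofId ℚ QB).injective ..).mpr hn)) =
      .some (algebraMap ℚ QB u) (algebraMap ℚ QB v) _
    rw [act_some, Affine.Point.some.injEq]
    exact ⟨σ.commutes u, σ.commutes v⟩

lemma exists_inc {P : Pt W QB} (h : dl P = 0) : ∃ Q : Pt W ℚ, inc W Q = P := by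
  have hfix : ∀ σ : QB ≃ₐ[ℚ] QB, act W σ.toAlgHom P = P := fun σ => sub_eq_zero.1 (congrFun h σ)
  rcases P with _ | ⟨u, v, hn⟩
  · exact ⟨0, rfl⟩
  · have h1 : ∀ σ : QB ≃ₐ[ℚ] QB, σ u = u ∧ σ v = v := by
      intro σ
      have h2 := hfix σ
      rw [act_some, Affine.Point.some.injEq] at h2
      exact h2
    obtain ⟨x, rfl⟩ := fix_mem u fun σ => (h1 σ).1
    obtain ⟨y, rfl⟩ := fix_mem v fun σ => (h1 σ).2
    exact ⟨.some x y ((Affine.baseChange_nonsingular W (Algebra.ofId ℚ QB).injective ..).mp hn), rfl⟩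

end

/-- rational points of order two are fixed -/
lemma act_tors {W : WeierstrassCurve ℚ} {a b c : ℚ} (h : IsR W a b c)
    {T : Pt W QB} (hT : T + T = 0) (σ : QB ≃ₐ[ℚ] QB) : act W σ.toAlgHom T = T := by
  rcases (h.base QB).tors two_ne_zero hT with rfl | ⟨ha, rfl⟩ | ⟨ha, rfl⟩ | ⟨ha, rfl⟩
  · exact map_zero _
  all_goals
    rw [act_some, Affine.Point.some.injEq]
    exact ⟨σ.commutes _, map_zero _⟩

/-- the version of the finite rank bound -/
lemma sh2_aux {A B : ℤ} (hA : A ≠ 0) (hB : B ≠ 0) (hAB : A ≠ B) :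
    (E A B).baseChange ℚ = E A B := by
  show (E A B).map (algebraMap ℚ ℚ) = E A B
  exact WeierstrassCurve.map_id _

/-- SH2 -/
theorem sh2 : SH2 := by
  intro A B hA hB hAB hfin
  have hA' : (0 : ℚ) ≠ A := by
    intro h
    apply hA
    exact_mod_cast h.symm
  have hB' : (0 : ℚ) ≠ B := by
    intro h
    apply hB
    exact_mod_cast h.symm
  have hAB' : (A : ℚ) ≠ B := by
    intro h
    apply hAB
    exact_mod_cast h
  have hR := isR_E A B
  have hinj : Function.Injective (algebraMap ℚ QB) := (algebraMap ℚ QB).injective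
  have hhalf : ∀ P : Pt (E A B) QB, ∃ Q, P = Q + Q := fun P =>
    (hR.base QB).div two_ne_zero (hinj.ne hA') (hinj.ne hB') (hinj.ne hAB') P
  set S : Set ((QB ≃ₐ[ℚ] QB) → Pt (E A B) QB) := {h | IsSel A B h} with hS
  -- locally trivial cocycles killed by two are in `S`
  have hmem : ∀ f : (QB ≃ₐ[ℚ] QB) → Pt (E A B) QB, f ∈ shaCoc (E A B) →
      (∀ σ, f σ + f σ = 0) → f ∈ S := by
    rintro f ⟨⟨h1, h2⟩, h3, -⟩ h4
    refine ⟨h1, h4, fun σ τ => ?_, fun p _ _ => h3 p⟩
    rw [h2, act_tors hR (h4 τ)]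
  -- the classes of Sha
  have hsha : ∀ x : {c : Sha (E A B) // c + c = 0}, ∃ f : shaCoc (E A B), f.1 ∈ S ∧
      (QuotientAddGroup.mk f : Sha (E A B)) = x.1 := by
    rintro ⟨x, hx⟩
    induction x using QuotientAddGroup.induction_on with
    | H f0 =>
      have h1 : IsCob (E A B) (f0 + f0 : shaCoc (E A B)).1 :=
        (QuotientAddGroup.eq_zero_iff (N := (cob (E A B)).addSubgroupOf (shaCoc (E A B)))
          (f0 + f0)).1 hx
      obtain ⟨P0, hP0⟩ := isCob_iff.1 h1
      obtain ⟨Q0, hQ0⟩ := hhalf P0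
      have hP0' : f0.1 + f0.1 = dl Q0 + dl Q0 := by
        rw [← dl_add, ← hQ0, ← hP0]
        rfl
      set f : shaCoc (E A B) := f0 - ⟨dl Q0, dl_sha Q0⟩ with hf
      refine ⟨f, hmem _ f.2 fun σ => ?_, ?_⟩
      · have h3 : f.1 + f.1 = (f0.1 + f0.1) - (dl Q0 + dl Q0) := by
          show (f0.1 - dl Q0) + (f0.1 - dl Q0) = _
          abel
        have h4 : f.1 + f.1 = 0 := by rw [h3, hP0', sub_self]
        exact congrFun h4 σ
      · refine (QuotientAddGroup.eq (s := (cob (E A B)).addSubgroupOf (shaCoc (E A B)))).2 ?_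
        show IsCob (E A B) (-(f0.1 - dl Q0) + f0.1)
        refine isCob_iff.2 ⟨Q0, ?_⟩
        abel
  choose fs hfs hfs' using hsha
  -- the homomorphisms of the points
  have hpt : ∀ P : Pt (E A B) ℚ, ∃ Q : Pt (E A B) QB, inc (E A B) P = Q + Q := fun P => hhalf _
  choose Qv hQv using hpt
  have hQS : ∀ P, dl (Qv P) ∈ S := by
    intro P
    refine hmem _ (dl_sha _) fun σ => ?_
    have h1 : dl (Qv P) + dl (Qv P) = 0 := by rw [← dl_add, ← hQv, dl_inc]
    exact congrFun h1 σ
  have hRfin : (Set.range fun P => dl (Qv P)).Finite :=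
    hfin.subset (by rintro _ ⟨P, rfl⟩; exact hQS P)
  -- the bound of the rank
  have hrank : 2 ^ Module.finrank ℤ (E A B).toAffine.Point ≤
      (Set.range fun P => dl (Qv P)).ncard := by
    obtain ⟨hfg, -⟩ := Pool.Agent.W214.RK.half A B hA hB hAB
    have hbc := sh2_aux hA hB hAB
    have e1 : Module.finrank ℤ (E A B).toAffine.Point =
        Module.finrank ℤ ((E A B).baseChange ℚ).toAffine.Point := by rw [hbc]
    have hfg' : AddGroup.FG ((E A B).baseChange ℚ).toAffine.Point := by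
      rw [hbc]
      exact hfg
    rw [e1]
    set R := hRfin.toFinset with hRdef
    have hsec : ∀ r : (QB ≃ₐ[ℚ] QB) → Pt (E A B) QB, ∃ P : Pt (E A B) ℚ,
        r ∈ (Set.range fun P => dl (Qv P)) → dl (Qv P) = r := by
      intro r
      by_cases hr : r ∈ (Set.range fun P => dl (Qv P))
      · obtain ⟨P, hP⟩ := hr
        exact ⟨P, fun _ => hP⟩
      · exact ⟨0, fun h => absurd h hr⟩
    choose sec hsec using hsec
    have := Pool.Agent.W505.RK.rkb ((E A B).baseChange ℚ).toAffine.Point hfg' R.card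
      (R.image sec) Finset.card_image_le (by
        intro P
        have hP : dl (Qv P) ∈ (Set.range fun P => dl (Qv P)) := ⟨P, rfl⟩
        refine ⟨sec (dl (Qv P)), Finset.mem_image.2 ⟨_, hRfin.mem_toFinset.2 hP, rfl⟩, ?_⟩
        have h1 := hsec _ hP
        set P' := sec (dl (Qv P)) with hP'
        have h2 : dl (Qv P + -(Qv P')) = 0 := by
          rw [dl_add, dl_neg, h1, add_neg_cancel]
        obtain ⟨M, hM⟩ := exists_inc h2
        refine ⟨M, ?_⟩
        apply inc_inj (W := E A B)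
        have h3 : inc (E A B) (P' + (M + M)) = inc (E A B) P' + (inc (E A B) M + inc (E A B) M) := by
          rw [map_add, map_add]
        refine Eq.trans ?_ h3.symm
        rw [hM, hQv, hQv]
        abel)
    rw [Set.ncard_eq_toFinset_card _ hRfin]
    exact this
  -- the injection
  let G : {c : Sha (E A B) // c + c = 0} × (Set.range fun P => dl (Qv P)) → S := fun y =>
    ⟨(fs y.1).1 + y.2.1, by
      obtain ⟨P, hP⟩ := y.2.2
      rw [← hP]
      obtain ⟨k1, k2, k3, k4⟩ := hfs y.1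
      obtain ⟨l1, l2, l3, l4⟩ := hQS P
      refine ⟨k1.add l1, fun σ => ?_, fun σ τ => ?_, fun p _ hp => ?_⟩
      · show (fs y.1).1 σ + dl (Qv P) σ + ((fs y.1).1 σ + dl (Qv P) σ) = 0
        have e : (fs y.1).1 σ + dl (Qv P) σ + ((fs y.1).1 σ + dl (Qv P) σ) =
          ((fs y.1).1 σ + (fs y.1).1 σ) + (dl (Qv P) σ + dl (Qv P) σ) := by abel
        rw [e, k2, l2, add_zero]
      · show (fs y.1).1 (σ * τ) + dl (Qv P) (σ * τ) = (fs y.1).1 σ + dl (Qv P) σ +
          ((fs y.1).1 τ + dl (Qv P) τ)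
        rw [k3, l3]
        abel
      · exact Pool.Agent.TH841.SH.locTriv_add (k4 p hp) (l4 p hp)⟩
  have hG : Function.Injective G := by
    rintro ⟨x, q⟩ ⟨x', q'⟩ h
    have h0 : (fs x).1 + q.1 = (fs x').1 + q'.1 := congrArg Subtype.val h
    obtain ⟨P, hP⟩ := q.2
    obtain ⟨P', hP'⟩ := q'.2
    have hP1 : dl (Qv P) = q.1 := hP
    have hP2 : dl (Qv P') = q'.1 := hP'
    have hx : x = x' := by
      apply Subtype.ext
      rw [← hfs' x, ← hfs' x']
      refine (QuotientAddGroup.eq (s := (cob (E A B)).addSubgroupOf (shaCoc (E A B)))).2 ?_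
      show IsCob (E A B) (-(fs x).1 + (fs x').1)
      refine isCob_iff.2 ⟨Qv P + -(Qv P'), ?_⟩
      rw [dl_add, dl_neg, hP1, hP2]
      have h3 : (fs x').1 = (fs x).1 + q.1 - q'.1 := by
        rw [h0]; abel
      rw [h3]
      abel
    subst hx
    have ht : q = q' := Subtype.ext (add_left_cancel h0)
    rw [ht]
  have hfinS : Finite S := hfin
  have hfin0 := Finite.of_injective G hG
  have hfin1 : Finite {c : Sha (E A B) // c + c = 0} :=
    Finite.of_injective (fun x => G (x, ⟨dl (Qv 0), 0, rfl⟩)) (fun x y h => by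
      have := hG h
      exact congrArg Prod.fst this)
  refine ⟨hfin1, ?_⟩
  have hcard := Nat.card_le_card_of_injective G hG
  rw [Nat.card_prod, Nat.card_coe_set_eq, Nat.card_coe_set_eq] at hcard
  calc 2 ^ Module.finrank ℤ (E A B).toAffine.Point * Nat.card {c : Sha (E A B) // c + c = 0}
      ≤ (Set.range fun P => dl (Qv P)).ncard * Nat.card {c : Sha (E A B) // c + c = 0} :=
        Nat.mul_le_mul_right _ hrank
    _ = Nat.card {c : Sha (E A B) // c + c = 0} * (Set.range fun P => dl (Qv P)).ncard :=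
        mul_comm _ _
    _ ≤ S.ncard := hcard

end Run7.h318.SH
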