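import Pool.Agent.W262.RK.F4b
import Pool.Agent.Run7.h318.SH.Rk

/-!
# The number `2 ^ rank * #Ш[2]` and the local count
-/

set_option autoImplicit false

namespace Run7.h318.SH

open scoped Classical

open Finset Pool.Agent.W262.RK

open Pool.Agent.W262.SH (Sha LocSol SelS IsSel)

/-- `2 ^ rank * #Ш[2]` of `y² = x (x - A) (x - B)` -/
noncomputable def RR (A B : ℤ) : ℕ :=
  2 ^ Module.finrank ℤ (Pool.Agent.W262.SH.E A B).toAffine.Point *
    Nat.card {c : Sha (Pool.Agent.W262.SH.E A B) // c + c = 0}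

/-- the bound by the local count -/
theorem rr_le (m : ℕ) (L : ℕ → Bool → Bool → Bool → Bool → Prop) (A B : ℤ) (hA : A ≠ 0)
    (hB : B ≠ 0) (hAB : A ≠ B) (hodd : Odd m) (hm : Squarefree m)
    (hL : ∀ p, p.Prime → p ∣ m → XC (L p))
    (hloc : ∀ (p : ℕ) [Fact p.Prime], p ∣ m → ∀ e1 e2 : ℤ, Squarefree e1 → Squarefree e2 →
      LocSol p A B e1 e2 → L p (dv p e1) (dv p e2) (sgn p e1) (sgn p e2)) :
    Finite {c : Sha (Pool.Agent.W262.SH.E A B) // c + c = 0} ∧ RR A B ≤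
      4 ^ (((2 * A * B * (A - B)).natAbs.primeFactors.filter (fun q => ¬ q ∣ m)).card + 2) *
        NL m L := by
  obtain ⟨h1, h2⟩ := desc5 m L A B hA hB hAB hodd hm hL hloc
  obtain ⟨h3, h4⟩ := sh1 A B hA hB hAB h1
  obtain ⟨h5, h6⟩ := sh2 A B hA hB hAB h3
  exact ⟨h5, (h6.trans h4).trans h2⟩

end Run7.h318.SH
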