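import Pool.Agent.Y700.ShaVC
import Pool.Agent.W605.RT.PAR4
import Pool.Agent.W135.RT.Par6
import Pool.Agent.W376.RTL.Low6
import Pool.Agent.W29.RT.LOW4
import Pool.Agent.Run7.h318.SH.Avg2

/-!
# Changes of the equation and `2 ^ rank * #Ш[2]`
-/

set_option autoImplicit false

namespace Run7.h318.SH

open WeierstrassCurve

open scoped Classical

open Pool.Agent.W262.SH (QB Pt act IsCoc IsCob LocTriv shaCoc cob Sha)

open Pool.Agent.Y700 (VR eL eL_act coc_VC)

/-- `2 ^ rank * #Ш[2]` -/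
noncomputable def RRW (W : WeierstrassCurve ℚ) : ℕ :=
  2 ^ Module.finrank ℤ W.toAffine.Point * Nat.card {c : Sha W // c + c = 0}

lemma rr_eq (A B : ℤ) : RR A B = RRW (Pool.Agent.W262.RK.EAB A B) := rfl

section

variable {W W' : WeierstrassCurve ℚ} {u r s t : ℚ}

/-- the map on the cocycles -/
noncomputable def cocMap (h : VR W W' u r s t) (hD : W'.Δ ≠ 0) : shaCoc W' →+ shaCoc W where
  toFun f := ⟨fun σ => eL h hD QB (f.1 σ), coc_VC h hD f.2⟩
  map_zero' := by
    apply Subtype.ext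
    funext σ
    exact map_zero (eL h hD QB)
  map_add' f g := by
    apply Subtype.ext
    funext σ
    exact map_add (eL h hD QB) (f.1 σ) (g.1 σ)

lemma cocMap_cob (h : VR W W' u r s t) (hD : W'.Δ ≠ 0) (f : shaCoc W') :
    (cocMap h hD f).1 ∈ cob W ↔ f.1 ∈ cob W' := by
  constructor
  · rintro ⟨Q, hQ⟩
    refine ⟨(eL h hD _).symm Q, fun σ => ?_⟩
    apply (eL h hD QB).injective
    have e1 : eL h hD QB (f.1 σ) = act W σ.toAlgHom Q - Q := hQ σ
    rw [map_sub, eL_act, AddEquiv.apply_symm_apply]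
    exact e1
  · rintro ⟨P, hP⟩
    refine ⟨eL h hD _ P, fun σ => ?_⟩
    show eL h hD QB (f.1 σ) = _
    rw [hP σ, map_sub, eL_act]

/-- the map on the Tate-Shafarevich groups -/
noncomputable def shaMap (h : VR W W' u r s t) (hD : W'.Δ ≠ 0) : Sha W' →+ Sha W :=
  QuotientAddGroup.map _ _ (cocMap h hD) (by
    intro f hf
    rw [AddSubgroup.mem_addSubgroupOf] at hf
    rw [AddSubgroup.mem_comap, AddSubgroup.mem_addSubgroupOf]
    exact (cocMap_cob h hD f).2 hf)

lemma shaMap_inj (h : VR W W' u r s t) (hD : W'.Δ ≠ 0) : Function.Injective (shaMap h hD) := by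
  rw [injective_iff_map_eq_zero]
  intro x hx
  induction x using QuotientAddGroup.induction_on with
  | H f =>
    have h1 : (cocMap h hD f).1 ∈ cob W := by
      have h2 : (QuotientAddGroup.mk (cocMap h hD f) : Sha W) = 0 := hx
      rw [QuotientAddGroup.eq_zero_iff, AddSubgroup.mem_addSubgroupOf] at h2
      exact h2
    rw [QuotientAddGroup.eq_zero_iff, AddSubgroup.mem_addSubgroupOf]
    exact (cocMap_cob h hD f).1 h1

theorem rrw_le (h : VR W W' u r s t) (hD : W'.Δ ≠ 0)
    (hfin : Finite {c : Sha W // c + c = 0}) :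
    Finite {c : Sha W' // c + c = 0} ∧ RRW W' ≤ RRW W := by
  let g : {c : Sha W' // c + c = 0} → {c : Sha W // c + c = 0} := fun c =>
    ⟨shaMap h hD c.1, by rw [← map_add, c.2, map_zero]⟩
  have hg : Function.Injective g := by
    intro c c' hcc
    exact Subtype.ext (shaMap_inj h hD (congrArg Subtype.val hcc))
  refine ⟨Finite.of_injective g hg, ?_⟩
  have h1 := Nat.card_le_card_of_injective g hg
  have h2 : Module.finrank ℤ W'.toAffine.Point = Module.finrank ℤ W.toAffine.Point :=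
    LinearEquiv.finrank_eq (h.equiv hD).toIntLinearEquiv
  unfold RRW
  rw [h2]
  exact Nat.mul_le_mul_left _ h1

end

/-- finiteness -/
theorem fin_EAB {A B : ℤ} (hA : A ≠ 0) (hB : B ≠ 0) (hAB : A ≠ B) :
    Finite {c : Sha (Pool.Agent.W262.RK.EAB A B) // c + c = 0} :=
  (rr_le 1 (fun _ _ _ _ _ => True) A B hA hB hAB odd_one squarefree_one
    (fun p hp hpd => absurd (Nat.dvd_one.1 hpd) hp.one_lt.ne')
    (fun p _ _ _ _ _ _ _ => trivial)).1

/-- shifts and scalings: the curves `⟨0, a2, 0, a4, a6⟩` and its transform -/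
lemma vr_shift {a2 a4 a6 r u : ℚ} (hu : u ≠ 0) :
    VR (⟨0, (a2 + 3 * r) / u ^ 2, 0, (a4 + 2 * r * a2 + 3 * r ^ 2) / u ^ 4,
      (a6 + r * a4 + r ^ 2 * a2 + r ^ 3) / u ^ 6⟩ : WeierstrassCurve ℚ)
      (⟨0, a2, 0, a4, a6⟩ : WeierstrassCurve ℚ) u⁻¹ (-r / u ^ 2) 0 0 where
  u0 := inv_ne_zero hu
  e1 := by simp
  e2 := by
    dsimp only
    field_simp
    ring
  e3 := by simp
  e4 := by
    dsimp only
    field_simp
    ring
  e6 := by
    dsimp only
    field_simp
    ring

end Run7.h318.SH
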